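import Pool.Agent.FLX.Stmts

/-! Squad FLX, module MOI: covariance of the integral equation under Moebius maps. -/

set_option autoImplicit false

open scoped InnerProductSpace Topology ContDiff Manifold
open MeasureTheory Filter Set

noncomputable section

namespace Pool.Agent.FLX.H76

open Pool.Agent.Helper42_Paneitz Pool.Agent.Helper82_Vir Pool.Agent.FLX

/-- an integrable function times a continuous one -/
theorem integrable_mul_cont {u v : S4 → ℝ} (hu : Integrable u sig) (hv : Continuous v) :
    Integrable (fun y => u y * v y) sig := by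
  obtain ⟨C, _, hC⟩ := exists_bound hv
  exact hu.mul_bdd (c := C) hv.aestronglyMeasurable (Eventually.of_forall fun y => by
    rw [Real.norm_eq_abs]
    exact hC y)

/-- the integral of the kernel is constant -/
theorem integral_ell_const (hI : ∀ x, Integrable (ell x) sig) (x x' : S4) :
    ∫ y, ell x y ∂sig = ∫ y, ell x' y ∂sig := by
  have hn : ‖(x : E5)‖ = ‖(x' : E5)‖ := by rw [S4_norm, S4_norm]
  obtain ⟨R, hR⟩ : ∃ R : E5 ≃ₗᵢ[ℝ] E5, R (x : E5) = x' :=
    ⟨(Submodule.span ℝ {(x : E5) - (x' : E5)})ᗮ.reflection, Submodule.reflection_sub hn⟩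
  have hmp := measurePreserving_act R
  have h1 : ∫ y, ell x' y ∂(Measure.map (act R) sig) = ∫ y, ell x' (act R y) ∂sig := by
    refine integral_map hmp.measurable.aemeasurable ?_
    rw [hmp.map_eq]
    exact (hI x').aestronglyMeasurable
  rw [hmp.map_eq] at h1
  rw [h1]
  refine integral_congr_ae (Eventually.of_forall fun y => ?_)
  change ell x y = ell x' (act R y)
  unfold ell
  rw [act_coe, ← hR, R.inner_map_map]

/-- MOI -/
theorem moi (moa : MoaStmt) (mos : MosStmt) (mom : MomStmt) (ker : KerStmt) : MoiStmt := by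
  intro b Q h hb hQ hIE
  obtain ⟨hh, havg, c0, hc0⟩ := hIE
  obtain ⟨a1, a2, a3, a4, a5, a6⟩ := moa b hb
  have hb' : ‖-b‖ < 1 := by rwa [norm_neg]
  obtain ⟨n1, n2, n3, n4, n5, n6⟩ := moa (-b) hb'
  have hinv : ∀ z : S4, mob b (mob (-b) z) = z := fun z => by
    have := n4 z
    rwa [neg_neg] at this
  have hD : 0 < 1 - ‖b‖ ^ 2 := by
    have := norm_nonneg b
    nlinarith
  have hJ : ∀ x, 0 < Jac b x := fun x => by
    unfold Jac
    have := a1 x
    positivity
  -- continuity
  have hcb : ∀ b : E5, ‖b‖ < 1 → Continuous (mob b) := fun b hb => by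
    rw [continuous_iff_continuousAt]
    intro x
    have h1 := mos.1.comp_continuous (f := fun x : S4 => (b, x))
      (continuous_const.prodMk continuous_id) (fun x => hb)
    exact h1.continuousAt
  have hcJ : Continuous (Jac b) := by
    unfold Jac
    refine Continuous.div continuous_const ?_ fun x => (pow_pos (a1 x) 4).ne'
    exact (continuous_const.add (continuous_const.inner continuous_subtype_val)).pow 4
  have hclog : Continuous fun y : S4 => Real.log (1 + ⟪b, (y : E5)⟫_ℝ) :=
    Continuous.log (continuous_const.add (continuous_const.inner continuous_subtype_val))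
      fun x => (a1 x).ne'
  obtain ⟨w, hw⟩ : ∃ w : S4 → ℝ, w = fun z => h (mob (-b) z) - Real.log (Jac b (mob (-b) z)) / 4 :=
    ⟨_, rfl⟩
  have hwc : Continuous w := by
    rw [hw]
    refine (hh.comp (hcb (-b) hb')).sub (Continuous.div_const ?_ 4)
    exact (hcJ.comp (hcb (-b) hb')).log fun z => (hJ _).ne'
  have hwm : ∀ x, w (mob b x) = h x - Real.log (Jac b x) / 4 := fun x => by
    rw [hw]
    simp only [a4 x]
  obtain ⟨f, hf⟩ : ∃ f : S4 → ℝ, f = fun y => Q (mob b y) * Real.exp (4 * h y) := ⟨_, rfl⟩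
  obtain ⟨g, hg⟩ : ∃ g : S4 → ℝ, g = fun y => Q y * Real.exp (4 * w y) := ⟨_, rfl⟩
  have hfc : Continuous f := by
    rw [hf]
    exact (hQ.comp (hcb b hb)).mul (Real.continuous_exp.comp (continuous_const.mul hh))
  have hgf : ∀ y, g (mob b y) * Jac b y = f y := fun y => by
    rw [hg, hf]
    simp only
    rw [hwm y, mul_sub, Real.exp_sub, mul_div_cancel₀ _ (by norm_num : (4 : ℝ) ≠ 0),
      Real.exp_log (hJ y)]
    field_simp [(hJ y).ne']
  have havgf : avg f = 6 := by rw [hf]; exact havg
  have hmne : msig ≠ 0 := msig_pos.ne'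
  have hIf : ∫ y, f y ∂sig = 6 * msig := by
    unfold avg at havgf
    field_simp at havgf
    linarith
  have hIg : ∫ y, g y ∂sig = 6 * msig := by
    rw [← mom b hb g, ← hIf]
    exact integral_congr_ae (Eventually.of_forall fun y => hgf y)
  have havgg : avg g = 6 := by
    unfold avg
    rw [hIg]
    field_simp
  have hIJ : ∫ y, Jac b y ∂sig = msig := by
    have h1 := mom b hb (fun _ => 1)
    simp only [one_mul] at h1
    rw [h1, integral_const_sig, mul_one]
  -- the kernel
  have hell : ∀ x : S4, ∀ᵐ y ∂sig, ell (mob b x) (mob b y) =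
      ell x y + (-Real.log (1 - ‖b‖ ^ 2) + Real.log (1 + ⟪b, (x : E5)⟫_ℝ)) +
        Real.log (1 + ⟪b, (y : E5)⟫_ℝ) := by
    intro x
    filter_upwards [ae_ne x] with y hy
    have h1 : 0 < 1 - ⟪(x : E5), (y : E5)⟫_ℝ := by
      have h2 := dist_sq x y
      have h3 : 0 < dist y x := dist_pos.2 hy
      have h4 : 0 < dist y x ^ 2 := by positivity
      linarith
    unfold ell
    rw [a3 x y, Real.log_div (mul_pos hD h1).ne' (mul_pos (a1 x) (a1 y)).ne',
      Real.log_mul hD.ne' h1.ne', Real.log_mul (a1 x).ne' (a1 y).ne']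
    ring
  have hI := ker.1
  -- the constants
  obtain ⟨L0, hL0⟩ : ∃ L0 : ℝ, ∀ x, ∫ y, ell x y ∂sig = L0 := by
    by_cases hne : Nonempty S4
    · obtain ⟨x0⟩ := hne
      exact ⟨∫ y, ell x0 y ∂sig, fun x => integral_ell_const hI x x0⟩
    · exact ⟨0, fun x => absurd ⟨x⟩ hne⟩
  obtain ⟨A, hA⟩ : ∃ A : S4 → ℝ, A = fun x : S4 =>
      -Real.log (1 - ‖b‖ ^ 2) + Real.log (1 + ⟪b, (x : E5)⟫_ℝ) := ⟨_, rfl⟩
  obtain ⟨β, hβ⟩ : ∃ β : S4 → ℝ, β = fun y : S4 => Real.log (1 + ⟪b, (y : E5)⟫_ℝ) := ⟨_, rfl⟩
  have hβc : Continuous β := by rw [hβ]; exact hclog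
  have hell' : ∀ x : S4, ∀ᵐ y ∂sig, ell (mob b x) (mob b y) = ell x y + A x + β y := by
    intro x
    rw [hA, hβ]
    exact hell x
  -- the general formula
  have hgen : ∀ (x : S4) (v : S4 → ℝ), Continuous v →
      ∫ y, ell (mob b x) (mob b y) * v y ∂sig =
        ∫ y, ell x y * v y ∂sig + A x * ∫ y, v y ∂sig + ∫ y, β y * v y ∂sig := by
    intro x v hv
    have i1 : Integrable (fun y => ell x y * v y) sig := integrable_mul_cont (hI x) hv
    have i2 : Integrable (fun y => A x * v y) sig := (integrable_cont hv).const_mul _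
    have i3 : Integrable (fun y => β y * v y) sig := integrable_cont (hβc.mul hv)
    have i12 : Integrable (fun y => ell x y * v y + A x * v y) sig := i1.add i2
    rw [← integral_const_mul, ← integral_add i1 i2, ← integral_add i12 i3]
    refine integral_congr_ae ?_
    filter_upwards [hell' x] with y hy
    rw [hy]
    ring
  have hJac : ∀ x : S4, ∫ y, ell x y * Jac b y ∂sig =
      L0 - A x * msig - ∫ y, β y * Jac b y ∂sig := by
    intro x
    have h1 := mom b hb (fun z => ell (mob b x) z)
    have h2 := hgen x (Jac b) hcJ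
    rw [hIJ] at h2
    rw [hL0 (mob b x)] at h1
    linarith
  have hmain : ∀ x : S4, K g (mob b x) = K f x + A x +
      (6 * (∫ y, β y * Jac b y ∂sig) + ∫ y, β y * (f y - 6 * Jac b y) ∂sig) / (6 * msig) := by
    intro x
    have h1 := mom b hb (fun z => ell (mob b x) z * (g z - avg g))
    have h2 : ∫ y, ell (mob b x) (mob b y) * (g (mob b y) - avg g) * Jac b y ∂sig =
        ∫ y, ell (mob b x) (mob b y) * (f y - 6 * Jac b y) ∂sig := by
      refine integral_congr_ae (Eventually.of_forall fun y => ?_)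
      change ell (mob b x) (mob b y) * (g (mob b y) - avg g) * Jac b y =
        ell (mob b x) (mob b y) * (f y - 6 * Jac b y)
      rw [havgg, ← hgf y]
      ring
    have hvc : Continuous fun y => f y - 6 * Jac b y := hfc.sub (continuous_const.mul hcJ)
    have h3 := hgen x (fun y => f y - 6 * Jac b y) hvc
    have h4 : ∫ y, (f y - 6 * Jac b y) ∂sig = 0 := by
      rw [integral_sub (integrable_cont hfc) ((integrable_cont hcJ).const_mul 6),
        integral_const_mul, hIf, hIJ, sub_self]
    have h5 : ∫ y, ell x y * (f y - 6 * Jac b y) ∂sig =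
        ∫ y, ell x y * (f y - avg f) ∂sig + 6 * ∫ y, ell x y ∂sig -
          6 * ∫ y, ell x y * Jac b y ∂sig := by
      have i1 : Integrable (fun y => ell x y * (f y - avg f)) sig :=
        integrable_mul_cont (hI x) (hfc.sub continuous_const)
      have i2 : Integrable (fun y => 6 * ell x y) sig := (hI x).const_mul 6
      have i3 : Integrable (fun y => 6 * (ell x y * Jac b y)) sig :=
        (integrable_mul_cont (hI x) hcJ).const_mul 6
      have i12 : Integrable (fun y => ell x y * (f y - avg f) + 6 * ell x y) sig := i1.add i2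
      rw [← integral_const_mul, ← integral_const_mul, ← integral_add i1 i2, ← integral_sub i12 i3]
      refine integral_congr_ae (Eventually.of_forall fun y => ?_)
      change ell x y * (f y - 6 * Jac b y) = ell x y * (f y - avg f) + 6 * ell x y -
        6 * (ell x y * Jac b y)
      rw [havgf]
      ring
    have h6 : K g (mob b x) = (∫ y, ell (mob b x) y * (g y - avg g) ∂sig) / (6 * msig) := rfl
    have h7 : K f x = (∫ y, ell x y * (f y - avg f) ∂sig) / (6 * msig) := rfl
    rw [h6, h7, ← h1, h2, h3, h4, h5, hL0 x, hJac x]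
    field_simp
    ring
  refine ⟨w, hwc, ?_, ?_⟩
  · rw [← hg]
    exact havgg
  · refine ⟨Real.log (1 - ‖b‖ ^ 2) / 2 + c0 -
      (6 * (∫ y, β y * Jac b y ∂sig) + ∫ y, β y * (f y - 6 * Jac b y) ∂sig) / (6 * msig), ?_⟩
    intro z
    rw [← hg]
    obtain ⟨x, hx⟩ : ∃ x, z = mob b x := ⟨mob (-b) z, (hinv z).symm⟩
    rw [hx, hwm x, hmain x, hc0 x, ← hf]
    have h1 : Real.log (Jac b x) = 2 * Real.log (1 - ‖b‖ ^ 2) -
        4 * Real.log (1 + ⟪b, (x : E5)⟫_ℝ) := by
      unfold Jac
      rw [Real.log_div (pow_pos hD 2).ne' (pow_pos (a1 x) 4).ne', Real.log_pow, Real.log_pow]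
      norm_num
    rw [h1, hA]
    ring

end Pool.Agent.FLX.H76
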